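import Pool.Agent.H97R2.LPB.Props
import Pool.Agent.H102R2.Z5.Brick

/-! Task POT of the LP project (helper422, helper97): the potential of the nodes. -/

set_option autoImplicit false

open Polynomial Filter Topology MeasureTheory Pool.Agent.H337R2 Pool.Agent.LP

namespace Pool.Agent.LPB

namespace PotB

open Finset

/-- the two definitions of `Psi` agree -/
theorem psi_eq (u : ℝ) : Pool.Agent.H337R2.Psi u = Pool.Agent.H102R2.Z5.Psi u := rfl


/-- bound for `c log |u|` -/
noncomputable def G (c u : ℝ) : ℝ := if 0 ≤ u then Pool.Agent.H102R2.Z5.Psi (u + c) - Pool.Agent.H102R2.Z5.Psi u else Pool.Agent.H102R2.Z5.Psi u - Pool.Agent.H102R2.Z5.Psi (u - c)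

theorem le_G {c u : ℝ} (hc : 0 < c) (hu : u ≠ 0) : c * Real.log |u| ≤ G c u := by
  unfold G
  split_ifs with h
  · have h1 : 0 < u := lt_of_le_of_ne h (Ne.symm hu)
    have h2 := Pool.Agent.H102R2.Z5.Psi_sub_ge h1 (show 0 < u + c by linarith)
    rw [abs_of_pos h1]
    have h3 : u + c - u = c := by ring
    rwa [h3] at h2
  · have h1 : 0 < -u := by linarith
    have h2 := Pool.Agent.H102R2.Z5.Psi_sub_ge h1 (show 0 < -u + c by linarith)
    rw [abs_of_neg (by linarith)]
    have h3 : -u + c - -u = c := by ring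
    have h4 : -u + c = -(u - c) := by ring
    rw [h3, h4, Pool.Agent.H102R2.Z5.Psi_neg, Pool.Agent.H102R2.Z5.Psi_neg] at h2
    linarith

theorem G_ge {c u : ℝ} (hc : 0 < c) : -2 ≤ G c u := by
  unfold G
  split_ifs with h
  · exact Pool.Agent.H102R2.Z5.Psi_sub_ge_neg_two (by linarith)
  · exact Pool.Agent.H102R2.Z5.Psi_sub_ge_neg_two (by linarith)

theorem sum_G {c : ℝ} (hc : 0 < c) (u : ℝ) (n : ℕ) :
    ∑ j ∈ range n, G c (u - c * j) ≤
      Pool.Agent.H102R2.Z5.Psi (u + c) + (if 0 ≤ u - c * n + c then -Pool.Agent.H102R2.Z5.Psi (u - c * n + c) else 2 - Pool.Agent.H102R2.Z5.Psi (u - c * n)) := by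
  induction n with
  | zero =>
    simp only [range_zero, sum_empty, Nat.cast_zero, mul_zero, sub_zero]
    split_ifs with h
    · linarith
    · have := Pool.Agent.H102R2.Z5.Psi_sub_ge_neg_two (show u ≤ u + c by linarith)
      linarith
  | succ n ih =>
    rw [sum_range_succ]
    have e1 : u - c * ((n + 1 : ℕ) : ℝ) + c = u - c * n := by push_cast; ring
    have e2 : u - c * ((n + 1 : ℕ) : ℝ) = u - c * n - c := by push_cast; ring
    rw [e1, e2]
    set w := u - c * n with hw
    have h2 := Pool.Agent.H102R2.Z5.Psi_sub_ge_neg_two (show w ≤ w + c by linarith)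
    unfold G at ih ⊢
    by_cases h0 : 0 ≤ w
    · rw [if_pos (show 0 ≤ w + c by linarith)] at ih
      rw [if_pos h0, if_pos h0]
      linarith
    · rw [if_neg h0, if_neg h0]
      split_ifs at ih with h1
      · linarith
      · linarith

theorem brick {c B y W : ℝ} (hc : 0 < c) (n : ℕ) (hW : |y| + |B| + c * n + c ≤ W) :
    ∑ j ∈ range n, G c (y - (B + c * ((j : ℝ) + 1 / 2))) ≤
      Pool.Agent.H102R2.Z5.Psi (y - B) - Pool.Agent.H102R2.Z5.Psi (y - B - c * n) + c * Real.log W + 2 := by
  have h1 := sum_G hc (y - B - c / 2) n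
  have h2 : ∀ j : ℕ, y - B - c / 2 - c * j = y - (B + c * ((j : ℝ) + 1 / 2)) := fun j => by ring
  simp only [h2] at h1
  refine h1.trans ?_
  have hy := abs_le.1 (le_refl |y|)
  have hB := abs_le.1 (le_refl |B|)
  have hn : 0 ≤ c * n := by positivity
  have e1 : y - B - c / 2 + c = y - B + c / 2 := by ring
  have h3 := Pool.Agent.H102R2.Z5.Psi_sub_le_log (x := y - B) (y := y - B + c / 2) (W := W)
    (by linarith) (by linarith) (by linarith)
  have h4 := Pool.Agent.H102R2.Z5.Psi_sub_le_log (x := y - B - c * n - c / 2)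
    (y := y - B - c * n) (W := W) (by linarith) (by linarith) (by linarith)
  have e2 : y - (B + c * ((n : ℝ) + 1 / 2)) = y - B - c * n - c / 2 := by ring
  rw [e1, e2]
  have h5 := Pool.Agent.H102R2.Z5.Psi_sub_ge_neg_two
    (show y - B - c * n - c / 2 ≤ y - B - c * n - c / 2 + c by linarith)
  have h6 : (if 0 ≤ y - B - c * n - c / 2 + c then -Pool.Agent.H102R2.Z5.Psi (y - B - c * n - c / 2 + c)
      else 2 - Pool.Agent.H102R2.Z5.Psi (y - B - c * n - c / 2)) ≤ 2 - Pool.Agent.H102R2.Z5.Psi (y - B - c * n - c / 2) := by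
    split_ifs with h
    · linarith
    · exact le_refl _
  nlinarith

theorem scale {n z : ℝ} (hn : 0 < n) : Pool.Agent.H102R2.Z5.Psi (n * z) = n * Pool.Agent.H102R2.Z5.Psi z + n * z * Real.log n := by
  unfold Pool.Agent.H102R2.Z5.Psi
  rcases eq_or_ne z 0 with rfl | hz
  · simp
  · rw [Real.log_mul hn.ne' hz]
    ring

end PotB

open PotB in
theorem G4_pot : S_pot := by
  refine ⟨60, by norm_num, ?_⟩
  intro n hn m hm1 hm2 i hi y
  have hn2 : (2 : ℝ) ≤ n := by exact_mod_cast hn
  have hn0 : (0 : ℝ) < n := by linarith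
  have hy0 : 0 ≤ |y| := abs_nonneg y
  by_cases hz : ∃ j ∈ (Finset.range m).erase i, |y - xn n j| = 0
  · obtain ⟨j, hj, hj0⟩ := hz
    rw [Finset.prod_eq_zero hj hj0]
    exact (Real.exp_pos _).le
  push Not at hz
  have hpos : ∀ j ∈ (Finset.range m).erase i, 0 < |y - xn n j| := fun j hj =>
    lt_of_le_of_ne (abs_nonneg _) (Ne.symm (hz j hj))
  rw [← Real.log_le_iff_le_exp (Finset.prod_pos hpos),
    Real.log_prod fun j hj => (hpos j hj).ne']
  set l := Real.log (n + |y|) with hl
  have hl2 : Real.log 2 ≤ l := Real.log_le_log (by norm_num) (by linarith)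
  have hlog2 : (1 : ℝ) / 2 ≤ Real.log 2 := by
    have := Real.log_two_gt_d9
    linarith
  -- the majorants
  set a : ℕ → ℝ := fun j =>
    if j < n then 16 / 15 * G (15 / 16) (y - (0 + 15 / 16 * ((j : ℝ) + 1 / 2)))
    else if j < 2 * n then
      16 / 15 * G (15 / 16) (-y - (0 + 15 / 16 * (((j - n : ℕ) : ℝ) + 1 / 2)))
    else if j < 3 * n then
      16 / 33 * G (33 / 16) (y - (15 / 16 * n + 33 / 16 * (((j - 2 * n : ℕ) : ℝ) + 1 / 2)))
    else if j < 4 * n then
      16 / 33 * G (33 / 16) (-y - (15 / 16 * n + 33 / 16 * (((j - 3 * n : ℕ) : ℝ) + 1 / 2)))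
    else l with ha
  have ha1 : ∀ j, |y - xn n j| ≠ 0 → Real.log |y - xn n j| ≤ a j := by
    intro j hj
    simp only [ha, xn] at hj ⊢
    split_ifs with h1 h2 h3 h4
    · rw [if_pos h1] at hj
      have := le_G (c := 15 / 16) (by norm_num) (abs_ne_zero.1 hj)
      rw [zero_add]
      linarith
    · rw [if_neg h1, if_pos h2] at hj
      have h5 : y - -(15 / 16 * (((j - n : ℕ) : ℝ) + 1 / 2)) =
        -(-y - (0 + 15 / 16 * (((j - n : ℕ) : ℝ) + 1 / 2))) := by ring
      rw [h5, abs_neg] at hj ⊢
      have := le_G (c := 15 / 16) (by norm_num) (abs_ne_zero.1 hj)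
      linarith
    · rw [if_neg h1, if_neg h2, if_pos h3] at hj
      have := le_G (c := 33 / 16) (by norm_num) (abs_ne_zero.1 hj)
      linarith
    · rw [if_neg h1, if_neg h2, if_neg h3, if_pos h4] at hj
      have h5 : y - -(15 / 16 * n + 33 / 16 * (((j - 3 * n : ℕ) : ℝ) + 1 / 2)) =
        -(-y - (15 / 16 * n + 33 / 16 * (((j - 3 * n : ℕ) : ℝ) + 1 / 2))) := by ring
      rw [h5, abs_neg] at hj ⊢
      have := le_G (c := 33 / 16) (by norm_num) (abs_ne_zero.1 hj)
      linarith
    · rw [if_neg h1, if_neg h2, if_neg h3, if_neg h4, sub_zero] at hj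
      rw [sub_zero]
      exact Real.log_le_log (lt_of_le_of_ne hy0 (Ne.symm hj)) (by linarith)
  have ha2 : ∀ j, -3 ≤ a j := by
    intro j
    simp only [ha]
    split_ifs with h1 h2 h3 h4
    · have := G_ge (c := 15 / 16) (u := y - (0 + 15 / 16 * ((j : ℝ) + 1 / 2))) (by norm_num)
      linarith
    · have := G_ge (c := 15 / 16) (u := -y - (0 + 15 / 16 * (((j - n : ℕ) : ℝ) + 1 / 2)))
        (by norm_num)
      linarith
    · have := G_ge (c := 33 / 16)
        (u := y - (15 / 16 * n + 33 / 16 * (((j - 2 * n : ℕ) : ℝ) + 1 / 2))) (by norm_num)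
      linarith
    · have := G_ge (c := 33 / 16)
        (u := -y - (15 / 16 * n + 33 / 16 * (((j - 3 * n : ℕ) : ℝ) + 1 / 2))) (by norm_num)
      linarith
    · linarith
  -- dropping at most three nodes
  have hS : ∑ j ∈ (Finset.range m).erase i, Real.log |y - xn n j| ≤
      ∑ j ∈ Finset.range (4 * n + 1), a j + 9 := by
    have h1 : ∑ j ∈ (Finset.range m).erase i, Real.log |y - xn n j| ≤
        ∑ j ∈ (Finset.range m).erase i, a j := Finset.sum_le_sum fun j hj => ha1 j (hz j hj)
    have hsub : (Finset.range m).erase i ⊆ Finset.range (4 * n + 1) := by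
      intro j hj
      rw [Finset.mem_erase, Finset.mem_range] at hj
      rw [Finset.mem_range]
      omega
    have h2 := Finset.sum_sdiff (f := a) hsub
    have h3 : ((Finset.range (4 * n + 1) \ (Finset.range m).erase i).card : ℝ) ≤ 3 := by
      rw [Finset.card_sdiff_of_subset hsub, Finset.card_range,
        Finset.card_erase_of_mem (Finset.mem_range.2 hi), Finset.card_range]
      have : 4 * n + 1 - (m - 1) ≤ 3 := by omega
      exact_mod_cast this
    have h4 : -9 ≤ ∑ j ∈ Finset.range (4 * n + 1) \ (Finset.range m).erase i, a j := by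
      have h5 := Finset.card_nsmul_le_sum (Finset.range (4 * n + 1) \ (Finset.range m).erase i) a
        (-3) fun j _ => ha2 j
      rw [nsmul_eq_mul] at h5
      linarith
    linarith
  refine hS.trans ?_
  -- the sum of the majorants
  have hsplit : ∑ j ∈ Finset.range (4 * n + 1), a j =
      16 / 15 * (∑ j ∈ Finset.range n, G (15 / 16) (y - (0 + 15 / 16 * ((j : ℝ) + 1 / 2)))) +
      16 / 15 * (∑ j ∈ Finset.range n, G (15 / 16) (-y - (0 + 15 / 16 * ((j : ℝ) + 1 / 2)))) +
      16 / 33 * (∑ j ∈ Finset.range n,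
        G (33 / 16) (y - (15 / 16 * n + 33 / 16 * ((j : ℝ) + 1 / 2)))) +
      16 / 33 * (∑ j ∈ Finset.range n,
        G (33 / 16) (-y - (15 / 16 * n + 33 / 16 * ((j : ℝ) + 1 / 2)))) + l := by
    have e : 4 * n + 1 = n + n + n + n + 1 := by ring
    rw [e, Finset.sum_range_succ, Finset.sum_range_add, Finset.sum_range_add,
      Finset.sum_range_add]
    simp only [Finset.mul_sum]
    congr 1
    · congr 1
      · congr 1
        · congr 1
          · refine Finset.sum_congr rfl fun j hj => ?_
            rw [Finset.mem_range] at hj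
            simp only [ha, if_pos hj]
          · refine Finset.sum_congr rfl fun j hj => ?_
            rw [Finset.mem_range] at hj
            simp only [ha]
            rw [if_neg (by omega), if_pos (by omega), Nat.add_sub_cancel_left]
        · refine Finset.sum_congr rfl fun j hj => ?_
          rw [Finset.mem_range] at hj
          simp only [ha]
          rw [if_neg (by omega), if_neg (by omega), if_pos (by omega),
            show n + n + j - 2 * n = j by omega]
      · refine Finset.sum_congr rfl fun j hj => ?_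
        rw [Finset.mem_range] at hj
        simp only [ha]
        rw [if_neg (by omega), if_neg (by omega), if_neg (by omega), if_pos (by omega),
          show n + n + n + j - 3 * n = j by omega]
    · simp only [ha]
      rw [if_neg (by omega), if_neg (by omega), if_neg (by omega), if_neg (by omega)]
  rw [hsplit]
  set W := 8 * (n + |y|) with hW
  have hlW : Real.log W ≤ 4 * l := by
    rw [hW, Real.log_mul (by norm_num) (by linarith)]
    have : Real.log 8 = 3 * Real.log 2 := by
      rw [show (8 : ℝ) = 2 ^ 3 by norm_num, Real.log_pow]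
      norm_num
    rw [this, ← hl]
    linarith
  have hB : |(15 / 16 * (n : ℝ))| = 15 / 16 * n := abs_of_pos (by positivity)
  have b1 := brick (c := 15 / 16) (B := 0) (y := y) (W := W) (by norm_num) n (by
    rw [abs_zero, hW]; linarith)
  have b2 := brick (c := 15 / 16) (B := 0) (y := -y) (W := W) (by norm_num) n (by
    rw [abs_neg, abs_zero, hW]; linarith)
  have b3 := brick (c := 33 / 16) (B := 15 / 16 * n) (y := y) (W := W) (by norm_num) n (by
    rw [hB, hW]; linarith)
  have b4 := brick (c := 33 / 16) (B := 15 / 16 * n) (y := -y) (W := W) (by norm_num) n (by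
    rw [abs_neg, hB, hW]; linarith)
  -- scaling
  have hv : y = n * (y / n) := by field_simp
  set v := y / n with hvd
  have s1 : y - 0 - 15 / 16 * n = n * (v - 15 / 16) := by rw [hv]; ring
  have s2 : -y - 0 - 15 / 16 * n = -(n * (v + 15 / 16)) := by rw [hv]; ring
  have s3 : y - 15 / 16 * n = n * (v - 15 / 16) := by rw [hv]; ring
  have s4 : y - 15 / 16 * n - 33 / 16 * n = n * (v - 3) := by rw [hv]; ring
  have s5 : -y - 15 / 16 * n = -(n * (v + 15 / 16)) := by rw [hv]; ring
  have s6 : -y - 15 / 16 * n - 33 / 16 * n = -(n * (v + 3)) := by rw [hv]; ring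
  rw [s1, sub_zero, scale hn0] at b1
  rw [s2, sub_zero, Pool.Agent.H102R2.Z5.Psi_neg, Pool.Agent.H102R2.Z5.Psi_neg, scale hn0] at b2
  rw [s4, s3, scale hn0, scale hn0] at b3
  rw [s6, s5, Pool.Agent.H102R2.Z5.Psi_neg, Pool.Agent.H102R2.Z5.Psi_neg, scale hn0,
    scale hn0] at b4
  unfold Ux
  simp only [psi_eq]
  nlinarith

end Pool.Agent.LPB
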